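import Pool.Agent.Helper46.K3.Final

/-!
Row SLOPE of the case `k = 4`: lethal triples when there are many elements (from the case `k = 3`).
-/

set_option autoImplicit false

namespace K4

open Finset

/-- lethal triples when there are many elements -/
theorem triples_far {n : ℕ} {h : ℝ} (hh : 100 ≤ h) (hn : 4 * h + h / 4 ≤ n) (x : Fin n → ℝ)
    (hx : ∀ i, 0 ≤ x i) (hs : ∑ i, x i ≤ h) :
    K3.cnt 1 3 x univ + (n - ⌊h⌋₊).choose 3 ≤ n.choose 3 := by
  set N := ⌊h * ((3 : ℕ) : ℝ)⌋₊ with hNdef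
  have hN1 : (N : ℝ) ≤ h * ((3 : ℕ) : ℝ) := Nat.floor_le (by push_cast; linarith)
  have hN2 : h * ((3 : ℕ) : ℝ) < N + 1 := Nat.lt_floor_add_one _
  push_cast at hN1 hN2
  have hsN : ⌊h⌋₊ = N / 3 := by
    rw [hNdef, ← Nat.floor_div_natCast]
    congr 1
    push_cast
    ring
  have h87 : 87 ≤ N := by
    rw [hNdef]
    apply Nat.le_floor
    push_cast
    linarith
  have hNn : N ≤ n := by
    have : (N : ℝ) ≤ n := by linarith
    exact_mod_cast this
  obtain ⟨k, hk⟩ := Nat.exists_eq_add_of_le hNn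
  have hb := K3.bound N k h87 x univ (by rw [card_univ, Fintype.card_fin]; exact hk)
    (fun i _ => hx i) (by linarith)
  have hs1 : ((N / 3 : ℕ) : ℝ) ≤ h := by
    rw [← hsN]
    exact Nat.floor_le (by linarith)
  have hs2 : h < ((N / 3 : ℕ) : ℝ) + 1 := by
    rw [← hsN]
    exact Nat.lt_floor_add_one _
  have hnk : (N : ℝ) + k = n := by
    rw [hk]
    push_cast
    ring
  rw [hnk] at hb
  have hsn : N / 3 ≤ n := le_trans (Nat.div_le_self N 3) hNn
  have hmax : max (K3.C3 (N : ℝ)) (K3.AA (n : ℝ) ((N / 3 : ℕ) : ℝ))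
      = K3.AA (n : ℝ) ((N / 3 : ℕ) : ℝ) := by
    apply max_eq_right
    set s : ℝ := ((N / 3 : ℕ) : ℝ) with hsdef
    have hsN3 : (N : ℝ) ≤ 3 * s + 2 := by
      have : N ≤ 3 * (N / 3) + 2 := by omega
      rw [hsdef]
      exact_mod_cast this
    have hn4 : 4 * s + s / 4 ≤ n := by linarith
    have hs99 : 99 ≤ s := by linarith
    have hN0 : (87 : ℝ) ≤ N := by exact_mod_cast h87
    unfold K3.AA
    have e1 : K3.C3 (N : ℝ) ≤ (3 * s + 2) * (3 * s + 1) * (3 * s) / 6 := by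
      unfold K3.C3
      have a1 : (N : ℝ) * (N - 1) ≤ (3 * s + 2) * (3 * s + 1) := by
        apply mul_le_mul hsN3 (by linarith) (by linarith) (by linarith)
      have a2 : (N : ℝ) * (N - 1) * (N - 2) ≤ (3 * s + 2) * (3 * s + 1) * (3 * s) := by
        apply mul_le_mul a1 (by linarith) (by linarith)
        apply mul_nonneg <;> linarith
      linarith
    have e2 : K3.C3 (n : ℝ) - K3.C3 ((n : ℝ) - s)
        = s * (3 * (n : ℝ) ^ 2 - 3 * n * s + s ^ 2 - 6 * n + 3 * s + 2) / 6 := by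
      unfold K3.C3
      ring
    rw [e2]
    refine e1.trans ?_
    obtain ⟨d, hd⟩ : ∃ d : ℝ, (n : ℝ) = 4 * s + s / 4 + d := ⟨n - (4 * s + s / 4), by ring⟩
    have hd0 : 0 ≤ d := by linarith
    rw [hd]
    have hs0 : 0 ≤ s := by linarith
    have key : 0 ≤ (3 * (4 * s + s / 4 + d) ^ 2 - 3 * (4 * s + s / 4 + d) * s + s ^ 2
        - 6 * (4 * s + s / 4 + d) + 3 * s + 2) - (3 * s + 2) * (3 * s + 1) * 3 := by
      nlinarith [mul_nonneg hs0 hd0, mul_nonneg hd0 hd0, mul_nonneg hs0 (sub_nonneg.2 hs99),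
        mul_nonneg hd0 (sub_nonneg.2 hs99)]
    have := mul_nonneg hs0 key
    nlinarith [this]
  rw [hmax] at hb
  unfold K3.AA at hb
  rw [← Nat.cast_sub hsn, ← K3.C3_nat, ← K3.C3_nat] at hb
  rw [hsN]
  have : ((K3.cnt 1 3 x univ + (n - N / 3).choose 3 : ℕ) : ℝ) ≤ ((n.choose 3 : ℕ) : ℝ) := by
    push_cast
    linarith
  exact_mod_cast this

end K4
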